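import Pool.Agent.Lib.MP_f4f7c0_an.K.Main

/-! For an open dense set of pairs of vector fields on a 3-manifold, every point has a
neighbourhood in which locally time-optimal trajectories have at most 66 switching times. -/

namespace Pool.Agent.Results.MP_f4f7c0_an.AbsoluteBound

open Pool.Agent.Lib.MP_f4f7c0_an.St
open scoped Manifold ContDiff

/-- `q` is admissible on `[0, T]` and time-optimal among the admissible trajectories that stay in
some open set containing it. -/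
def LocallyOptimal {M : Type*} [TopologicalSpace M] [ChartedSpace (EuclideanSpace ℝ (Fin 3)) M]
    [IsManifold (𝓡 3) ∞ M] (f g : VF (EuclideanSpace ℝ (Fin 3)) M) (q : ℝ → M) (T : ℝ) : Prop :=
  (∃ u, Admissible f g u q T) ∧ ∃ V : Set M, IsOpen V ∧ Set.MapsTo q (Set.Icc 0 T) V ∧
    ∀ u' q' T', Admissible f g u' q' T' → Set.MapsTo q' (Set.Icc 0 T') V → q' 0 = q 0 →
      q' T' = q T → T ≤ T'

theorem result (M : Type*) [TopologicalSpace M] [T2Space M] [SecondCountableTopology M]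
    [ChartedSpace (EuclideanSpace ℝ (Fin 3)) M] [IsManifold (𝓡 3) ∞ M] :
    ∃ G : Set (VF (EuclideanSpace ℝ (Fin 3)) M × VF (EuclideanSpace ℝ (Fin 3)) M),
      @IsOpen _ (@instTopologicalSpaceProd _ _ (whitneyTop _ M) (whitneyTop _ M)) G ∧
      @Dense _ (@instTopologicalSpaceProd _ _ (whitneyTop _ M) (whitneyTop _ M)) G ∧
      ∀ fg ∈ G, ∀ q₀ : M, ∃ U ∈ nhds q₀, ∀ (q : ℝ → M) (T : ℝ), LocallyOptimal fg.1 fg.2 q T →
        Set.MapsTo q (Set.Icc 0 T) U →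
        (switchingTimes (EuclideanSpace ℝ (Fin 3)) q T).encard ≤ 66 := by
  obtain ⟨G, h1, h2, h3⟩ := Pool.Agent.Lib.MP_f4f7c0_an.K.open_dense (M := M)
  refine ⟨G, h1, h2, fun fg hfg q₀ => ?_⟩
  obtain ⟨U, hU, H⟩ := Pool.Agent.Lib.MP_f4f7c0_an.K.switching66 (h3 fg hfg) q₀
  refine ⟨U, hU, fun q T ⟨hu, V, hV, hq, ho⟩ => H V q T hV
    ⟨hu.imp fun _ => Pool.Agent.Lib.MP_f4f7c0_an.st_adm.1, hq, fun u' q' T' h' =>
      ho u' q' T' (Pool.Agent.Lib.MP_f4f7c0_an.st_adm.2 h')⟩⟩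

/-- The form with a residual set, time-optimality in `M` and a bound depending on the point. -/
theorem residual_form (M : Type*) [TopologicalSpace M] [T2Space M] [SecondCountableTopology M]
    [ChartedSpace (EuclideanSpace ℝ (Fin 3)) M] [IsManifold (𝓡 3) ∞ M] :
    ∀ᶠ fg in @residual (VF (EuclideanSpace ℝ (Fin 3)) M × VF (EuclideanSpace ℝ (Fin 3)) M)
        (@instTopologicalSpaceProd _ _ (whitneyTop _ M) (whitneyTop _ M)),
      ∀ q₀ : M, ∃ U ∈ nhds q₀, ∃ k : ℕ, ∀ (q : ℝ → M) (T : ℝ), TimeOptimal fg.1 fg.2 q T →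
        Set.MapsTo q (Set.Icc 0 T) U →
        (switchingTimes (EuclideanSpace ℝ (Fin 3)) q T).encard ≤ k := by
  obtain ⟨G, h1, h2, h3⟩ := result M
  refine Filter.mem_of_superset (@residual_of_dense_open _ (_) _ h1 h2) fun fg hfg q₀ => ?_
  obtain ⟨U, hU, H⟩ := h3 fg hfg q₀
  exact ⟨U, hU, 66, fun q T h => H q T ⟨h.1, Set.univ, isOpen_univ, Set.mapsTo_univ _ _,
    fun u' q' T' h' _ => h.2 u' q' T' h'⟩⟩

/-- The weaker form: each locally time-optimal trajectory has finitely many switching times. -/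
theorem finite_form (M : Type*) [TopologicalSpace M] [T2Space M] [SecondCountableTopology M]
    [ChartedSpace (EuclideanSpace ℝ (Fin 3)) M] [IsManifold (𝓡 3) ∞ M] :
    ∃ G : Set (VF (EuclideanSpace ℝ (Fin 3)) M × VF (EuclideanSpace ℝ (Fin 3)) M),
      @IsOpen _ (@instTopologicalSpaceProd _ _ (whitneyTop _ M) (whitneyTop _ M)) G ∧
      @Dense _ (@instTopologicalSpaceProd _ _ (whitneyTop _ M) (whitneyTop _ M)) G ∧
      ∀ fg ∈ G, ∀ (q : ℝ → M) (T : ℝ), LocallyOptimal fg.1 fg.2 q T →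
        (switchingTimes (EuclideanSpace ℝ (Fin 3)) q T).Finite := by
  obtain ⟨G, h1, h2, h3⟩ := result M
  refine ⟨G, h1, h2, fun fg hfg q T ⟨hu, V, hV, hq, ho⟩ => ?_⟩
  have hO : Pool.Agent.Lib.MP_f4f7c0_an.K.OptIn V fg.1 fg.2 q T :=
    ⟨hu.imp fun _ => Pool.Agent.Lib.MP_f4f7c0_an.st_adm.1, hq, fun u' q' T' h' =>
      ho u' q' T' (Pool.Agent.Lib.MP_f4f7c0_an.st_adm.2 h')⟩
  refine hO.finite fun x => (h3 fg hfg x).imp fun U hU => ⟨hU.1, fun q' T' h' hq' => ?_⟩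
  exact Set.finite_of_encard_le_coe (k := 66) (hU.2 q' T'
    ⟨h'.1.imp fun _ => Pool.Agent.Lib.MP_f4f7c0_an.st_adm.2, V, hV, h'.2.1, fun u' q' T' h =>
      h'.2.2 u' q' T' (Pool.Agent.Lib.MP_f4f7c0_an.st_adm.1 h)⟩ hq')

end Pool.Agent.Results.MP_f4f7c0_an.AbsoluteBound
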